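import Pool.Agent.helper64.D2.SpecC

set_option autoImplicit false

open Filter Topology
open scoped commutatorElement

namespace Pool.Agent.helper64.D2

theorem LPK_der (X : ℝ → ℝ) (c : ℝ) : deriv (fun x => c * X x) = fun x => c * deriv X x := by
  funext x
  exact deriv_const_mul_field c

theorem LPK_d2 (X : ℝ → ℝ) (c : ℝ) (x : ℝ) : d2 (fun x => c * X x) x = c * d2 X x := by
  unfold d2
  rw [LPK_der X c, LPK_der (deriv X) c]

theorem LPK_single (hHTH : HTH_stmt) (hBSQ : BSQ_stmt) (hKSG : KSG_stmt) (hPLC : PLC_stmt) :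
    ∃ B0 : ℕ, ∀ B : ℕ, B0 ≤ B → ∀ (f : DD) (Z : ℝ → ℝ), Rep f Z →
      St Z (3 / 10) (6 / 10) (1 / (B : ℝ) ^ 40) (2 ^ (2 * B)) → Pi.mulSingle 2 f ∈ K0 := by
  obtain ⟨B0, hB0⟩ := hHTH
  refine ⟨max B0 30, fun B hB f Z hf hZ => ?_⟩
  have hB1 : B0 ≤ B := le_trans (le_max_left _ _) hB
  have hB2 : 30 ≤ B := le_trans (le_max_right _ _) hB
  have hmono := (hBSQ B hB2).1
  have hb0 : bs B 0 = B := rfl
  let F : ℕ → DD := fun n => if n = 0 then f else 1
  let X : ℕ → ℝ → ℝ := fun n => if n = 0 then Z else fun _ => 0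
  have hbpos : ∀ n, 0 < (bs B n : ℝ) := by
    intro n
    have h1 := (hBSQ B hB2).2.1 n
    have h2 : 0 < bs B n := by omega
    exact_mod_cast h2
  have hFX : ∀ n, Rep (F n) (X n) ∧ St (X n) (3 / 10) (6 / 10) (1 / (bs B n : ℝ) ^ 40) (2 ^ (2 * bs B n)) := by
    intro n
    rcases Nat.eq_zero_or_pos n with hn | hn
    · subst hn
      simp only [F, X, if_true, hb0]
      exact ⟨hf, hZ⟩
    · have hn' : n ≠ 0 := hn.ne'
      simp only [F, X, if_neg hn']
      refine ⟨fun x => by rw [ev_one]; simp, contDiff_const, fun _ _ => rfl, fun x => ?_, fun x y => ?_⟩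
      · have : d2 (fun _ : ℝ => (0 : ℝ)) x = 0 := by
          unfold d2; simp
        rw [this, abs_zero]
        have := hbpos n
        positivity
      · have h0 : ∀ x, d2 (fun _ : ℝ => (0 : ℝ)) x = 0 := by
          intro x; unfold d2; simp
        rw [h0, h0, sub_zero, abs_zero]
        positivity
  have hK := hB0 B hB1 F X hFX
  have hmono' : StrictMono (fun n => 160 * bs B n) := by
    intro a b hab
    have := hmono hab
    show 160 * bs B a < 160 * bs B b
    omega
  obtain ⟨hp1, hp2⟩ := hPLC (fun n => 160 * bs B n) F hmono'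
  have heq : place (fun n => 160 * bs B n) F = Pi.mulSingle (160 * B) f := by
    funext m
    by_cases hm : m = 160 * B
    · subst hm
      have h1 := hp1 0
      simp only [hb0] at h1
      rw [h1, Pi.mulSingle_eq_same]
      simp [F]
    · rw [Pi.mulSingle_eq_of_ne hm]
      by_cases hex : ∃ i, 160 * bs B i = m
      · obtain ⟨i, hi⟩ := hex
        have hi0 : i ≠ 0 := by
          rintro rfl
          exact hm (by rw [← hi, hb0])
        have h1 := hp1 i
        simp only [hi] at h1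
        rw [h1]
        simp [F, hi0]
      · push Not at hex
        exact hp2 m hex
  rw [heq] at hK
  exact (hKSG (160 * B) f (by omega)).1 hK

theorem LPK (hHTH : HTH_stmt) (hBSQ : BSQ_stmt) (hRAT : RAT_stmt) (hDIF : DIF_stmt) (hKSG : KSG_stmt)
    (hPLC : PLC_stmt) (hBAS : BAS_stmt) : LPK_stmt := by
  intro g X L hg hX
  obtain ⟨hXc, hX0, hXa, hXL⟩ := hX
  obtain ⟨B0, hB0⟩ := LPK_single hHTH hBSQ hKSG hPLC
  have hL0 : 0 ≤ L := by
    have h1 := hXL 0 1
    have h2 : (0 : ℝ) ≤ |d2 X 0 - d2 X 1| := abs_nonneg _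
    have h3 : |(0 : ℝ) - 1| = 1 := by norm_num
    rw [h3, mul_one] at h1
    linarith
  obtain ⟨M, hM⟩ := pow_unbounded_of_one_lt (6 * L + 1) (show (1 : ℝ) < 2 by norm_num)
  set B : ℕ := max (max B0 1) M with hBdef
  have hB1 : B0 ≤ B := le_trans (le_max_left _ _) (le_max_left _ _)
  have hB2 : 1 ≤ B := le_trans (le_max_right _ _) (le_max_left _ _)
  have hB3 : M ≤ B := le_max_right _ _
  have hB2L : 6 * L + 1 ≤ (2 : ℝ) ^ (2 * B) :=
    hM.le.trans (pow_le_pow_right₀ (by norm_num) (by omega))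
  set N : ℕ := B ^ 40 with hN
  have hNpos : 0 < N := by positivity
  have hNR : (0 : ℝ) < (N : ℝ) := by exact_mod_cast hNpos
  obtain ⟨hd1, -, -, -⟩ := hBAS X (31 / 100) (59 / 100) (1 / 8) hXc hX0 hXa (by norm_num)
  -- the interpolation
  have hf : ∀ j : ℕ, j ≤ N → ∃ f : DD, Rep f (fun x => ((j : ℝ) / N) * X x) := by
    intro j hj
    have hc1 : 0 ≤ (j : ℝ) / N := by positivity
    have hc2 : (j : ℝ) / N ≤ 1 := by
      rw [div_le_one hNR]; exact_mod_cast hj
    refine hDIF _ (contDiff_const.mul hXc) (fun x hx => ?_) (fun x => ?_)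
    · have : X x = 0 := hX0 x (fun h => hx ⟨by linarith [h.1], by linarith [h.2]⟩)
      simp only [this, mul_zero]
    · rw [LPK_der]
      show |(j : ℝ) / N * deriv X x| ≤ 1 / 2
      rw [abs_mul, abs_of_nonneg hc1]
      have h1 := hd1 x
      have h2 : (0 : ℝ) ≤ |deriv X x| := abs_nonneg _
      nlinarith
  have hmain : ∀ j : ℕ, j ≤ N → ∀ f : DD, Rep f (fun x => ((j : ℝ) / N) * X x) → Pi.mulSingle 2 f ∈ K0 := by
    intro j
    induction j with
    | zero =>
      intro _ f hf0
      have : f = 1 := by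
        apply ev_ext
        intro x
        rw [hf0 x, ev_one]
        simp
      rw [this, Pi.mulSingle_one]
      exact K0.one_mem
    | succ j ih =>
      intro hj f hfj
      obtain ⟨c, hc⟩ := hf j (by omega)
      have hcK := ih (by omega) c hc
      have hc1 : 0 ≤ (j : ℝ) / N := by positivity
      have hc2 : (j : ℝ) / N ≤ 1 := by
        rw [div_le_one hNR]; exact_mod_cast (by omega : j ≤ N)
      have hs1 : 0 ≤ ((j + 1 : ℕ) : ℝ) / N := by positivity
      have hs2 : ((j + 1 : ℕ) : ℝ) / N ≤ 1 := by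
        rw [div_le_one hNR]; exact_mod_cast hj
      obtain ⟨Z, hZ1, hZ2, hZ3, hZ4, -, hZ6⟩ := hRAT f c (fun x => (((j + 1 : ℕ) : ℝ) / N) * X x) (fun x => ((j : ℝ) / N) * X x)
        (31 / 100) (59 / 100) (1 / 8) hfj hc (contDiff_const.mul hXc) (contDiff_const.mul hXc)
        (fun x hx => by simp only [hX0 x hx, mul_zero, and_self])
        (fun x => by
          rw [LPK_d2, LPK_d2, abs_mul, abs_mul, abs_of_nonneg hc1, abs_of_nonneg hs1]
          have h1 := hXa x
          have h2 : (0 : ℝ) ≤ |d2 X x| := abs_nonneg _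
          constructor <;> nlinarith)
        (by norm_num) (by norm_num) (by norm_num) (by norm_num)
      have hZa : ∀ x, |d2 Z x| ≤ 2 * (1 / (8 * N)) := by
        refine hZ4 _ (fun x => ?_)
        rw [LPK_d2, LPK_d2, ← sub_mul]
        have h3 : ((j + 1 : ℕ) : ℝ) / N - (j : ℝ) / N = 1 / N := by
          push_cast; ring
        rw [h3, abs_mul, abs_of_pos (by positivity : (0 : ℝ) < 1 / N)]
        calc 1 / (N : ℝ) * |d2 X x| ≤ 1 / (N : ℝ) * (1 / 8) := by
              apply mul_le_mul_of_nonneg_left (hXa x); positivity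
          _ = 1 / (8 * N) := by
              field_simp
      have hZL : ∀ x y, |d2 Z x - d2 Z y| ≤ (6 * L + 1) * |x - y| := by
        refine hZ6 L hL0 (fun x y => ?_) (fun x y => ?_)
        · rw [LPK_d2, LPK_d2, ← mul_sub, abs_mul, abs_of_nonneg hs1]
          have h1 := hXL x y
          have h2 : (0 : ℝ) ≤ |d2 X x - d2 X y| := abs_nonneg _
          nlinarith
        · rw [LPK_d2, LPK_d2, ← mul_sub, abs_mul, abs_of_nonneg hc1]
          have h1 := hXL x y
          have h2 : (0 : ℝ) ≤ |d2 X x - d2 X y| := abs_nonneg _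
          nlinarith
      have hSt : St Z (3 / 10) (6 / 10) (1 / (B : ℝ) ^ 40) (2 ^ (2 * B)) := by
        refine ⟨hZ2, fun x hx => hZ3 x (fun h => hx ⟨by linarith [h.1], by linarith [h.2]⟩), fun x => ?_, fun x y => ?_⟩
        · refine (hZa x).trans ?_
          have h5 : ((N : ℕ) : ℝ) = (B : ℝ) ^ 40 := by rw [hN]; push_cast; rfl
          rw [← h5]
          have h6 : 2 * (1 / (8 * (N : ℝ))) = 1 / (N : ℝ) * (1 / 4) := by
            field_simp; norm_num
          rw [h6]
          have h7 : 0 < 1 / (N : ℝ) := by positivity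
          linarith
        · refine (hZL x y).trans ?_
          exact mul_le_mul_of_nonneg_right hB2L (abs_nonneg _)
      have hmem := hB0 B hB1 (f * c⁻¹) Z hZ1 hSt
      have h8 : (Pi.mulSingle 2 f : ℕ → DD) = Pi.mulSingle 2 (f * c⁻¹) * Pi.mulSingle 2 c := by
        rw [← Pi.mulSingle_mul, inv_mul_cancel_right]
      rw [h8]
      exact K0.mul_mem hmem hcK
  refine hmain N le_rfl g ?_
  intro x
  rw [hg x]
  simp only [div_self hNR.ne', one_mul]

end Pool.Agent.helper64.D2
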